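import Pool.Agent.Hx18.MD.Stmt
import Pool.Agent.Hx18.CI.Van

/-!
# Vanishing theorems in weights larger than `2 j`
-/

set_option autoImplicit false

open CategoryTheory AlgebraicGeometry

universe u v w

namespace Pool.Agent.Hx18.MD

open Pool.Agent.H914 Pool.Agent.H914.VarClass Pool.Agent.H914.VarClass.Obj Pool.Agent.W492.BB
  Pool.Agent.W550.Corr Pool.Agent.TH133 Pool.Agent.Y148.BB Pool.Agent.Hx18.BB Pool.Agent.Hx18.CI

set_option linter.unusedSectionVars false
set_option linter.unusedVariables false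

variable {k : Type u} [Field k] {𝒱 : VarClass k}

variable {C : TheoryData.{u, v, 0} 𝒱 ℚ} [hC : IsChowProj C] {K : Type w} [Field K]
  {H : WeilTheoryData.{u, v, w} C K} [hH : IsWeilProj H] {X Y Z W T P R V S : 𝒱.Obj}
  {Q : ∀ V : 𝒱.Obj, C.A (V.prod V) → Prop} {D : ℕ∞}

/-- The vanishing properties of the Chow groups of the motive `(P, p)` of weight `n`, in the
codimensions at most `D`. -/
structure Van (H : WeilTheoryData.{u, v, w} C K) (D : ℕ∞) (n : ℕ) (P : 𝒱.Obj)
    (p : C.A (P.prod P)) : Prop where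
  low : ∀ j : ℕ, (j : ℕ∞) ≤ D → 2 * j < n → ∀ z : C.A P, C.Deg j z → C.act p z = z → z = 0
  mid : ∀ j : ℕ, (j : ℕ∞) ≤ D → 2 * j = n → ∀ z : C.A P, C.Deg j z → C.act p z = z →
    H.cl z = 0 → z = 0

include hC hH

lemma Van.of_summand {n : ℕ} {p : C.A (P.prod P)} {r : C.A (R.prod R)} (h : IsSummand p r)
    (hr : Van H D n R r) : Van H D n P p := by
  obtain ⟨f, g, hf, hg, hfg, hfr⟩ := h
  have key : ∀ z : C.A P, C.act p z = z → C.act f z = 0 → z = 0 := by
    intro z hz h0
    rw [← hz, ← hfg, C.act_comp, h0, C.act_map_zero]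
  have hfix : ∀ z : C.A P, C.act r (C.act f z) = C.act f z := by
    intro z
    rw [← C.act_comp, hfr]
  refine ⟨?_, ?_⟩
  · intro j hj hjn z hz hpz
    exact key z hpz (hr.low j hj hjn _ (act_mem00 (H := H) hf hz) (hfix z))
  · intro j hj hjn z hz hpz hcl
    refine key z hpz (hr.mid j hj hjn _ (act_mem00 (H := H) hf hz) (hfix z) ?_)
    rw [cl_act, hcl]
    exact map_zero (H.actL (H.cl f))

/-- The step for a curve. -/
lemma curve_step (hfib : FibreProperty C) {n : ℕ}
    {p : C.A (P.prod P)} (hp : IsPure H n P p) (hT : T.dim = 1) {o : C.A T} (ho : C.Deg 1 o)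
    (hd : HasDegree C o 1) (hV : Van H D n P p) {j : ℕ} (hj : (j : ℕ∞) ≤ D)
    {z : C.A (P.prod T)} (hz : C.Deg j z) (hpz : C.act (TH133.tens C p (oddProj C o)) z = z)
    (h : 2 * j < n + 1) : z = 0 := by
  have hr := isPure_curve (H := H) hT ho hd
  obtain ⟨h1, h2⟩ := hp.fix hr hpz
  have h3 := tp_left hp h1
  have h4 := tp_right hr h2
  have hzt : tp C z ∈ C.gr (T.prod P) (T.dim + ((j : ℤ) - 1)) :=
    mem_of_eq (tp_mem C hz) (by rw [hT]; push_cast; ring)
  -- the restrictions to the fibres vanish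
  have hfibre : ∀ t : C.A T, C.Deg 1 t →
      C.down (fst P T) (C.mul z (C.up (snd P T) t)) = 0 := by
    intro t ht
    have e1 : C.down (fst P T) (C.mul z (C.up (snd P T) t)) = C.act (tp C z) t :=
      (act_tp C z t).symm
    rw [e1]
    have e2 : C.act (tp C z) t = C.act (tp C z) (C.act (oddProj C o) t) := by
      rw [← C.act_comp, h4]
    have hrt : C.Deg 1 (C.act (oddProj C o) t) := act_mem00 (H := H) hr.deg ht
    have hclt : H.cl (C.act (oddProj C o) t) = 0 := by
      rw [cl_act]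
      exact hr.kills 2 (by norm_num) _ (by simpa using H.cl_mem ht)
    have hy : C.Deg j (C.act (tp C z) t) := mem_of_eq (act_mem' C hzt ht) (by ring)
    have hpy : C.act p (C.act (tp C z) t) = C.act (tp C z) t := by
      rw [← C.act_comp, h3]
    have hcly : H.cl (C.act (tp C z) t) = 0 := by
      rw [e2, cl_act, hclt]
      exact map_zero (H.actL (H.cl (tp C z)))
    rcases lt_or_eq_of_le (by omega : 2 * j ≤ n) with hlt | heq
    · exact hV.low j hj hlt _ hy hpy
    · exact hV.mid j hj heq _ hy hpy hcly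
  have h5 := hfib P T j z hT hz hfibre
  have h6 : Submodule.span ℚ {c | ∃ (x : C.A P) (t : C.A T), C.Deg ((j : ℤ) - 1) x ∧ C.Deg 1 t ∧
      c = C.ext x t} ≤ LinearMap.ker (C.actL (TH133.tens C p (oddProj C o))) := by
    rw [Submodule.span_le]
    rintro c ⟨x, t, hx, ht, rfl⟩
    rw [SetLike.mem_coe, LinearMap.mem_ker, TheoryData.actL_apply,
      act_tens_ext C _ _ (fun f c => ch_comm C _ _)]
    have h7 : C.act p x = 0 := by
      have hx' : C.act p x ∈ C.gr P ((j : ℤ) - 1) := act_mem00 (H := H) hp.deg hx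
      have hx'' : C.act p (C.act p x) = C.act p x := by rw [← C.act_comp, hp.idem]
      rcases Nat.eq_zero_or_pos j with h0 | h0
      · subst h0
        rw [C.gr_neg P _ (by norm_num)] at hx'
        exact (Submodule.mem_bot ℚ).1 hx'
      · obtain ⟨i, rfl⟩ : ∃ i, j = i + 1 := ⟨j - 1, by omega⟩
        refine hV.low i ((by exact_mod_cast Nat.le_succ i : (i : ℕ∞) ≤ ((i + 1 : ℕ) : ℕ∞)).trans hj)
          (by omega) _ (mem_of_eq hx' (by push_cast; ring)) hx''
    rw [h7, TheoryData.ext_zero_left]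
  have h8 := h6 h5
  rw [LinearMap.mem_ker, TheoryData.actL_apply, hpz] at h8
  exact h8

/-- The step for a block. -/
lemma block_step (hQ : ∀ V q, Q V q → IsBlock H Q V q) {n : ℕ}
    {p : C.A (P.prod P)} (hp : IsPure H n P p) {q : C.A (V.prod V)} (hq : Q V q)
    (hV : Van H D n P p)
    (hV' : ∀ (T : 𝒱.Obj) (r : C.A (T.prod T)), IsPiece Q T r → T.dim + 1 = V.dim →
      Van H D (n + T.dim) (P.prod T) (TH133.tens C p r)) {j : ℕ} (hj : (j : ℕ∞) ≤ D)
    {z : C.A (P.prod V)} (hz : C.Deg j z) (hpz : C.act (TH133.tens C p q) z = z)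
    (h : 2 * j < n + V.dim) : z = 0 := by
  have hb := hQ V q hq
  have hr := isPure_block hb
  have hpr := hp.tens hr
  obtain ⟨h1, h2⟩ := hp.fix hr hpz
  have hcl : H.cl z = 0 := by
    rw [← hpz, cl_act]
    refine hpr.kills (2 * j) ?_ _ (H.cl_mem hz)
    push_cast
    omega
  have hj1 : ∀ i : ℕ, i ≤ j → (i : ℕ∞) ≤ D := fun i hi =>
    ((by exact_mod_cast hi : (i : ℕ∞) ≤ (j : ℕ∞))).trans hj
  have hrest : ∀ (T : 𝒱.Obj) (i : T ⟶ V) (r : C.A (T.prod T)), IsGood Q q i r →
      C.up (prodMap (𝟙 P) i) z = 0 := by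
    intro T i r hi
    have hdim := hi.dim_eq
    have hpure := isPure_piece hQ hi.piece
    have e0 : C.pull (prodMap (𝟙 P) i) z = C.comp z (tp C (C.graph i)) := pull_eq_comp i z
    have e3 := good_comp hi hb.self_dual h2
    set w := C.pull (prodMap (𝟙 P) i) z with hw
    have hwd : w ∈ C.gr (P.prod T) j := C.pull_mem _ hz
    have e1 : C.comp p w = w := by rw [e0, ← comp_assoc, h1]
    have e4 : C.act (TH133.tens C p r) w = w := hp.fix_of e1 e3
    have hclw : H.cl w = 0 := by rw [hw, H.cl_pull, hcl, map_zero]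
    have hVT := hV' T r hi.piece hdim
    change w = 0
    rcases lt_or_eq_of_le (by omega : 2 * j ≤ n + T.dim) with hlt | heq
    · exact hVT.low j hj hlt w hwd e4
    · exact hVT.mid j hj heq w hwd e4 hclw
  have h5 := hb.sections P j z hz h2 hrest
  have h6 : Submodule.span ℚ {c | ∃ (T : 𝒱.Obj) (i : T ⟶ V) (r : C.A (T.prod T))
      (w : C.A (P.prod T)), IsMember Q q i r ∧ C.Deg ((j : ℤ) - 1) w ∧
      c = C.down (prodMap (𝟙 P) i) w} ≤
      LinearMap.ker (C.actL (TH133.tens C p q)) := by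
    rw [Submodule.span_le]
    rintro c ⟨T, i, r, w, hi, hw, rfl⟩
    rw [SetLike.mem_coe, LinearMap.mem_ker, TheoryData.actL_apply]
    change C.act _ (C.push (prodMap (𝟙 P) i) w) = 0
    have hdim := hi.dim_eq
    have hpure := isPure_piece hQ hi.piece
    rw [act_tens C (ch_comm C), hp.self_dual, ← comp_graph, ← comp_assoc C p, comp_graph]
    set v := C.comp p w with hv
    have hvd : v ∈ C.gr (P.prod T) ((j : ℤ) - 1) := comp_memZ hp.deg hw (by ring)
    have hpv : C.comp p v = v := by rw [hv, ← comp_assoc, hp.idem]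
    refine member_comp hi ?_ ?_
    · have e1 : C.act (TH133.tens C p r) (C.comp v r) = C.comp v r := by
        refine hp.fix_of ?_ ?_
        · rw [← comp_assoc, hpv]
        · rw [comp_assoc, hpure.idem]
      have e2 : C.comp v r ∈ C.gr (P.prod T) ((j : ℤ) - 1) :=
        comp_memZ hvd hpure.deg (by ring)
      rcases Nat.eq_zero_or_pos j with h0 | h0
      · subst h0
        rw [C.gr_neg _ _ (by norm_num)] at e2
        exact (Submodule.mem_bot ℚ).1 e2
      · obtain ⟨i', rfl⟩ : ∃ i', j = i' + 1 := ⟨j - 1, by omega⟩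
        exact (hV' T r hi.piece hdim).low i' (hj1 i' (by omega)) (by omega) _
          (mem_of_eq e2 (by push_cast; ring)) e1
    · intro l m a hlm hm ha
      have e1 : C.act p (C.act (tp C v) a) = C.act (tp C v) a := by
        rw [← C.act_comp, tp_left hp hpv]
      have e2 : C.act (tp C v) a ∈ C.gr P ((j : ℤ) - 1 - m) := by
        refine act_memZ (tp_mem C hvd) ha ?_
        push_cast [← hlm]; ring
      rcases lt_or_ge j (1 + m) with h0 | h0
      · rw [C.gr_neg _ _ (by omega)] at e2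
        exact (Submodule.mem_bot ℚ).1 e2
      · obtain ⟨i', rfl⟩ : ∃ i', j = i' + (1 + m) := ⟨j - (1 + m), by omega⟩
        exact hV.low i' (hj1 i' (by omega)) (by omega) _
          (mem_of_eq e2 (by push_cast; ring)) e1
  have h9 := h6 h5
  rw [LinearMap.mem_ker, TheoryData.actL_apply, hpz] at h9
  exact h9

/-- The vanishing properties of a single block. -/
lemma block_single (hQ : ∀ V q, Q V q → IsBlock H Q V q)
    {q : C.A (V.prod V)} (hq : Q V q)
    (hV' : ∀ (T : 𝒱.Obj) (r : C.A (T.prod T)), IsPiece Q T r → T.dim + 1 = V.dim →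
      Van H D T.dim T r) {j : ℕ} (hj : (j : ℕ∞) ≤ D)
    {z : C.A V} (hz : C.Deg j z) (hqz : C.act q z = z)
    (h : 2 * j < V.dim) : z = 0 := by
  have hb := hQ V q hq
  have hr := isPure_block hb
  have htwo := hb.two_le
  obtain ⟨o, ho, hd⟩ := exists_point C V
  have hcl : H.cl z = 0 := by
    rw [← hqz, cl_act]
    refine hr.kills (2 * j) ?_ _ (H.cl_mem hz)
    omega
  have hj1 : ∀ i : ℕ, i ≤ j → (i : ℕ∞) ≤ D := fun i hi =>
    ((by exact_mod_cast hi : (i : ℕ∞) ≤ (j : ℕ∞))).trans hj
  have h2 : C.comp (C.ext (1 : C.A V) z) q = C.ext (1 : C.A V) z := by rw [ext_comp, hqz]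
  have hrest : ∀ (T : 𝒱.Obj) (i : T ⟶ V) (r : C.A (T.prod T)), IsGood Q q i r →
      C.up (prodMap (𝟙 V) i) (C.ext (1 : C.A V) z) = 0 := by
    intro T i r hi
    have hdim := hi.dim_eq
    have e0 : C.pull (prodMap (𝟙 V) i) (C.ext (1 : C.A V) z) =
        C.ext (1 : C.A V) (C.pull i z) := by
      rw [TheoryData.ext, map_mul, ← C.pull_comp, ← C.pull_comp, prodMap_fst, prodMap_snd,
        C.pull_comp, C.pull_comp, map_one, map_one, TheoryData.ext, map_one]
    have e3 := good_comp hi hb.self_dual h2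
    rw [e0, ext_comp] at e3
    have e4 : C.act r (C.pull i z) = C.pull i z := by
      rw [← act_ext_one hd (C.act r (C.pull i z)), e3, act_ext_one hd]
    change C.pull (prodMap (𝟙 V) i) (C.ext (1 : C.A V) z) = 0
    rw [e0]
    have hwd : C.pull i z ∈ C.gr T j := C.pull_mem _ hz
    have hclw : H.cl (C.pull i z) = 0 := by rw [H.cl_pull, hcl, map_zero]
    have hVT := hV' T r hi.piece hdim
    have key : C.pull i z = 0 := by
      rcases lt_or_eq_of_le (by omega : 2 * j ≤ T.dim) with hlt | heq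
      · exact hVT.low j hj hlt _ hwd e4
      · exact hVT.mid j hj heq _ hwd e4 hclw
    rw [key, TheoryData.ext_zero_right]
  have hzd : C.ext (1 : C.A V) z ∈ C.gr (V.prod V) j :=
    mem_of_eq (ext_mem' (C.one_mem V) hz) (by ring)
  have h5 := hb.sections V j _ hzd h2 hrest
  have h6 : Submodule.span ℚ {c | ∃ (T : 𝒱.Obj) (i : T ⟶ V) (r : C.A (T.prod T))
      (w : C.A (V.prod T)), IsMember Q q i r ∧ C.Deg ((j : ℤ) - 1) w ∧
      c = C.down (prodMap (𝟙 V) i) w} ≤
      LinearMap.ker (C.actL q ∘ₗ (actB C (X := V) (Y := V)).flip o) := by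
    rw [Submodule.span_le]
    rintro c ⟨T, i, r, w, hi, hw, rfl⟩
    rw [SetLike.mem_coe, LinearMap.mem_ker]
    change C.act q (C.act (C.push (prodMap (𝟙 V) i) w) o) = 0
    have hdim := hi.dim_eq
    have hpure := isPure_piece hQ hi.piece
    set y := C.act w o with hy
    have hyd : y ∈ C.gr T ((j : ℤ) - 1) := act_memZ hw ho (by ring)
    rw [← comp_graph, C.act_comp, C.act_graph, ← hy]
    have e5 : C.comp (C.push (prodMap (𝟙 V) i) (C.ext (1 : C.A V) y)) q = 0 := by
      refine member_comp hi ?_ ?_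
      · rw [ext_comp]
        have e1 : C.act r (C.act r y) = C.act r y := by rw [← C.act_comp, hpure.idem]
        have e2 : C.act r y ∈ C.gr T ((j : ℤ) - 1) := act_memZ hpure.deg hyd (by ring)
        have e3 : C.act r y = 0 := by
          rcases Nat.eq_zero_or_pos j with h0 | h0
          · subst h0
            rw [C.gr_neg _ _ (by norm_num)] at e2
            exact (Submodule.mem_bot ℚ).1 e2
          · obtain ⟨i', rfl⟩ : ∃ i', j = i' + 1 := ⟨j - 1, by omega⟩
            exact (hV' T r hi.piece hdim).low i' (hj1 i' (by omega)) (by omega) _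
              (mem_of_eq e2 (by push_cast; ring)) e1
        rw [e3, TheoryData.ext_zero_right]
      · intro l m a hlm hm ha
        rw [tp_ext]
        have e1 : y * a ∈ C.gr T ((j : ℤ) - 1 + l) := C.mul_mem hyd ha
        refine act_ext_zero_of_lt e1 ?_
        omega
    rw [← comp_graph, ext_comp, ext_comp, C.act_graph] at e5
    rw [← act_ext_one hd (C.act q (C.push i y)), e5, C.act_zero]
  have h9 := h6 h5
  rw [LinearMap.mem_ker] at h9
  have h10 : C.act q (C.act (C.ext (1 : C.A V) z) o) = 0 := h9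
  rw [act_ext_one hd, hqz] at h10
  exact h10

/-- The condition on the homologically trivial classes, in the codimensions at most `D`. -/
def PartHom (H : WeilTheoryData.{u, v, w} C K) (Q : ∀ V : 𝒱.Obj, C.A (V.prod V) → Prop)
    (D : ℕ∞) : Prop :=
  ∀ j : ℕ, (j : ℕ∞) ≤ D → ∀ (n : ℕ) (P : 𝒱.Obj) (p : C.A (P.prod P)), Part Q n P p →
    n = 2 * j → ∀ z : C.A P, C.Deg j z → C.act p z = z → H.cl z = 0 → z = 0

/-- The vanishing properties of the pieces. -/
theorem van_piece (hQ : ∀ V q, Q V q → IsBlock H Q V q)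
    (hhom : PartHom H Q D) : ∀ (m : ℕ) (T : 𝒱.Obj) (r : C.A (T.prod T)), IsPiece Q T r →
      T.dim = m → Van H D T.dim T r := by
  intro m
  induction m with
  | zero =>
    intro T r h hT
    have := one_le_piece hQ h
    omega
  | succ m ih =>
    intro T r h hT
    refine ⟨?_, fun j hj hjn z hz hpz hcl => hhom j hj T.dim T r (Part.piece T r h) hjn.symm z hz
      hpz hcl⟩
    intro j hj hjn z hz hpz
    rcases h with h | ⟨o, hT1, ho, hd, rfl⟩
    · have htwo := (hQ _ _ h).two_le
      have hV' : ∀ (T' : 𝒱.Obj) (r : C.A (T'.prod T')), IsPiece Q T' r → T'.dim + 1 = T.dim →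
          Van H D T'.dim T' r := fun T' r' h' hd' => ih T' r' h' (by omega)
      exact block_single hQ h hV' hj hz hpz hjn
    · have hp := isPure_curve (H := H) hT1 ho (degreeOne_iff.1 hd)
      obtain rfl : j = 0 := by omega
      exact zero_codim one_ne_zero hp (by exact_mod_cast hz) hpz

/-- The vanishing properties of the products with a piece. -/
theorem van_prod (hfib : FibreProperty C) (hQ : ∀ V q, Q V q → IsBlock H Q V q)
    (hhom : PartHom H Q D) {n : ℕ} {p : C.A (P.prod P)}
    (hp : Part Q n P p) (hV : Van H D n P p) :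
    ∀ (m : ℕ) (T : 𝒱.Obj) (r : C.A (T.prod T)), IsPiece Q T r → T.dim = m →
      Van H D (n + T.dim) (P.prod T) (TH133.tens C p r) := by
  have hpp := isPure_part hQ hp
  have hn := one_le_part hQ hp
  intro m
  induction m with
  | zero =>
    intro T r h hT
    have := one_le_piece hQ h
    omega
  | succ m ih =>
    intro T r h hT
    have hpos := one_le_piece hQ h
    refine ⟨?_, fun j hj hjn z hz hpz hcl => hhom j hj _ _ _ (Part.prod n P T p r hp h) hjn.symm z
      hz hpz hcl⟩
    intro j hj hjn z hz hpz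
    rcases h with h | ⟨o, hT1, ho, hd, rfl⟩
    · have hV' : ∀ (T' : 𝒱.Obj) (r : C.A (T'.prod T')), IsPiece Q T' r → T'.dim + 1 = T.dim →
          Van H D (n + T'.dim) (P.prod T') (TH133.tens C p r) :=
        fun T' r' h' hd' => ih T' r' h' (by omega)
      exact block_step hQ hpp h hV hV' hj hz hpz hjn
    · have hd' := degreeOne_iff.1 hd
      rw [hT1] at hjn
      exact curve_step hfib hpp hT1 ho hd' hV hj hz hpz hjn

/-- **The vanishing theorem.** -/
theorem van_part (hfib : FibreProperty C) (hQ : ∀ V q, Q V q → IsBlock H Q V q)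
    (hhom : PartHom H Q D) {n : ℕ} {p : C.A (P.prod P)} (h : Part Q n P p) : Van H D n P p := by
  induction h with
  | piece T r hr => exact van_piece hQ hhom T.dim T r hr rfl
  | prod n P T p r hp hr ih => exact van_prod hfib hQ hhom hp ih T.dim T r hr rfl

end Pool.Agent.Hx18.MD
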