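import Pool.Agent.Hx18.MD.Fil

/-!
# Chow-Kunneth decompositions of products of curves and blocks
-/

set_option autoImplicit false

open CategoryTheory AlgebraicGeometry

universe u v w

namespace Pool.Agent.Hx18.MD

open Pool.Agent.H914 Pool.Agent.H914.VarClass Pool.Agent.H914.VarClass.Obj Pool.Agent.W492.BB
  Pool.Agent.W550.Corr Pool.Agent.TH133 Pool.Agent.Y148.BB Pool.Agent.Hx18.BB Pool.Agent.Hx18.CI

set_option linter.unusedSectionVars false
set_option linter.unusedVariables false

variable {k : Type u} [Field k] {𝒱 : VarClass k}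

variable {C : TheoryData.{u, v, 0} 𝒱 ℚ} [hC : IsChowProj C] {K : Type w} [Field K]
  {H : WeilTheoryData.{u, v, w} C K} [hH : IsWeilProj H] {X Y Z W T P R V S : 𝒱.Obj}
  {Q : ∀ V : 𝒱.Obj, C.A (V.prod V) → Prop}

/-- The combinations of products `a × b` with `b` of codimension `n`. -/
noncomputable def SS (C : TheoryData.{u, v, 0} 𝒱 ℚ) (V : 𝒱.Obj) (n : ℕ) : Submodule ℚ (C.A (V.prod V)) :=
  Submodule.span ℚ {c | ∃ a b : C.A V, a ∈ C.gr V ((V.dim : ℤ) - n) ∧ b ∈ C.gr V n ∧
    c = C.ext a b}

include hC

lemma ss_comp_ne {n m : ℕ} (h : n ≠ m) {x y : C.A (V.prod V)} (hx : x ∈ SS C V n)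
    (hy : y ∈ SS C V m) : C.comp x y = 0 := by
  have h1 : ∀ y : C.A (V.prod V), (∃ a b : C.A V, a ∈ C.gr V ((V.dim : ℤ) - m) ∧
      b ∈ C.gr V m ∧ y = C.ext a b) → SS C V n ≤
      LinearMap.ker ((compL C (X := V) (Y := V) (Z := V)).flip y) := by
    rintro y ⟨a', b', ha', hb', rfl⟩
    rw [SS, Submodule.span_le]
    rintro c ⟨a, b, ha, hb, rfl⟩
    rw [SetLike.mem_coe, LinearMap.mem_ker]
    change C.comp (C.ext a b) (C.ext a' b') = 0
    have h2 : b * a' ∈ C.gr V ((n : ℤ) + ((V.dim : ℤ) - m)) := C.mul_mem hb ha'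
    rw [comp_ext_ext (hasDegree_of_ne h2 (by omega)), zero_smul]
  have h2 : SS C V m ≤ LinearMap.ker (compL C (X := V) (Y := V) (Z := V) x) := by
    rw [SS, Submodule.span_le]
    intro y hy
    rw [SetLike.mem_coe, LinearMap.mem_ker]
    exact LinearMap.mem_ker.1 (h1 y hy hx)
  exact LinearMap.mem_ker.1 (h2 hy)

lemma ss_comp_left {n : ℕ} {x y : C.A (V.prod V)} (hx : x ∈ SS C V n)
    (hy : y ∈ C.gr (V.prod V) V.dim) : C.comp x y ∈ SS C V n := by
  have h1 : SS C V n ≤ (SS C V n).comap ((compL C (X := V) (Y := V) (Z := V)).flip y) := by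
    rw [SS, Submodule.span_le]
    rintro c ⟨a, b, ha, hb, rfl⟩
    rw [SetLike.mem_coe, Submodule.mem_comap]
    change C.comp (C.ext a b) y ∈ SS C V n
    rw [ext_comp]
    exact Submodule.subset_span ⟨a, _, ha, act_memZ hy hb (by ring), rfl⟩
  exact h1 hx

lemma ss_mem {n : ℕ} {x : C.A (V.prod V)} (hx : x ∈ SS C V n) :
    x ∈ C.gr (V.prod V) V.dim := by
  have h1 : SS C V n ≤ C.gr (V.prod V) V.dim := by
    rw [SS, Submodule.span_le]
    rintro c ⟨a, b, ha, hb, rfl⟩
    exact mem_of_eq (ext_mem' ha hb) (by ring)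
  exact h1 hx

/-- The graded pieces of a combination of products. -/
lemma exists_pieces {e : C.A (V.prod V)}
    (he : InSpan (fun c => ∃ (l n : ℕ) (a b : C.A V), l + n = V.dim ∧ C.Deg l a ∧ C.Deg n b ∧
      c = box a b) e) : ∃ θ : ℕ → C.A (V.prod V), (∀ n, θ n ∈ SS C V n) ∧
      (∀ n, V.dim < n → θ n = 0) ∧ ∑ n ∈ Finset.range (V.dim + 1), θ n = e := by
  have he' : e ∈ Submodule.span ℚ {c | ∃ (l n : ℕ) (a b : C.A V), l + n = V.dim ∧ C.Deg l a ∧
    C.Deg n b ∧ c = box a b} := he
  induction he' using Submodule.span_induction with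
  | mem c hc =>
    obtain ⟨l, n, a, b, hln, ha, hb, rfl⟩ := hc
    refine ⟨fun m => if m = n then box a b else 0, ?_, ?_, ?_⟩
    · intro m
      dsimp only
      by_cases hm : m = n
      · subst hm
        rw [if_pos rfl]
        exact Submodule.subset_span ⟨a, b, mem_of_eq ha (by push_cast [← hln]; ring), hb, rfl⟩
      · rw [if_neg hm]
        exact Submodule.zero_mem _
    · intro m hm
      dsimp only
      rw [if_neg (by omega)]
    · rw [Finset.sum_ite_eq' (Finset.range (V.dim + 1)) n, if_pos (by
        rw [Finset.mem_range]; omega)]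
  | zero => exact ⟨fun _ => 0, fun _ => Submodule.zero_mem _, fun _ _ => rfl,
      Finset.sum_const_zero⟩
  | add x y hx hy ihx ihy =>
    obtain ⟨θ, h1, h2, h3⟩ := ihx hx
    obtain ⟨θ', h1', h2', h3'⟩ := ihy hy
    refine ⟨fun n => θ n + θ' n, fun n => Submodule.add_mem _ (h1 n) (h1' n), ?_, ?_⟩
    · intro n hn
      dsimp only
      rw [h2 n hn, h2' n hn, add_zero]
    · rw [Finset.sum_add_distrib, h3, h3']
  | smul c x hx ihx =>
    obtain ⟨θ, h1, h2, h3⟩ := ihx hx
    refine ⟨fun n => c • θ n, fun n => Submodule.smul_mem _ _ (h1 n), ?_, ?_⟩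
    · intro n hn
      dsimp only
      rw [h2 n hn, smul_zero]
    · rw [← Finset.smul_sum, h3]

omit hC in
lemma sum_even {M : Type*} [AddCommMonoid M] (f : ℕ → M) (m : ℕ) :
    ∑ i ∈ Finset.range (2 * m + 1), (if Even i then f (i / 2) else 0) =
      ∑ n ∈ Finset.range (m + 1), f n := by
  induction m with
  | zero => simp
  | succ m ih =>
    have h1 : 2 * (m + 1) + 1 = (2 * m + 1) + 1 + 1 := by ring
    rw [h1, Finset.sum_range_succ, Finset.sum_range_succ, ih, Finset.sum_range_succ _ (m + 1)]
    have h2 : ¬ Even (2 * m + 1) := by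
      rw [Nat.not_even_iff_odd]
      exact ⟨m, rfl⟩
    have h3 : Even (2 * m + 1 + 1) := ⟨m + 1, by ring⟩
    rw [if_neg h2, if_pos h3, add_zero]
    congr 2
    omega

include hH

lemma ss_kills {n : ℕ} {x : C.A (V.prod V)} (hx : x ∈ SS C V n) {m : ℤ} (hm : m ≠ 2 * n)
    {a : H.A V} (ha : a ∈ H.gr V m) : H.act (H.cl x) a = 0 := by
  have hx' : x ∈ Submodule.span ℚ {c | ∃ a b : C.A V, a ∈ C.gr V ((V.dim : ℤ) - n) ∧
    b ∈ C.gr V n ∧ c = C.ext a b} := hx
  clear hx
  induction hx' using Submodule.span_induction with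
  | mem c hc =>
    obtain ⟨u, v, hu, hv, rfl⟩ := hc
    exact act_ext_ne (r := n) hv hu hm ha
  | zero =>
    rw [map_zero]
    exact H.act_zero a
  | add x y hx hy ihx ihy => rw [map_add, H.act_add, ihx, ihy, add_zero]
  | smul c x hx ihx =>
    let x' : Cor C V := x
    have h2 : actH C V H x' a = 0 := ihx
    have h3 : c • x' = (c • (1 : Cor C V)) * x' := (smul_one_mul c x').symm
    change actH C V H (c • x') a = 0
    rw [h3, map_mul, Module.End.mul_apply, h2, map_zero]

/-- A Chow-Kunneth decomposition of a block. -/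
theorem exists_ck_block {q' : C.A (V.prod V)} (h : IsPure H V.dim V q')
    (he : InSpan (fun c => ∃ (l n : ℕ) (a b : C.A V), l + n = V.dim ∧ C.Deg l a ∧ C.Deg n b ∧
      c = box a b) (diag C V - q')) :
    ∃ π : ℕ → C.A (V.prod V), IsCK H V π ∧ C.comp q' (π V.dim) = q' := by
  let q : Cor C V := q'
  obtain ⟨θ, h1, h2, h3⟩ := exists_pieces he
  let t : ℕ → Cor C V := θ
  let e : Cor C V := 1 - q
  have hsum : ∑ n ∈ Finset.range (V.dim + 1), t n = e := h3
  have hqq : q * q = q := h.idem
  have hqe : q * e = 0 := by simp only [e]; rw [mul_sub, mul_one, hqq, sub_self]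
  have heq : e * q = 0 := by simp only [e]; rw [sub_mul, one_mul, hqq, sub_self]
  have hee : e * e = e := by
    have : e * e = e - q * e := by simp only [e]; rw [sub_mul, one_mul]
    rw [this, hqe, sub_zero]
  have hne : ∀ n m, n ≠ m → t n * t m = 0 := fun n m hnm => ss_comp_ne hnm.symm (h1 m) (h1 n)
  have hin : ∀ n, V.dim < n → t n = 0 := h2
  -- products with the sum
  have hte : ∀ n, t n * e = t n * t n := by
    intro n
    rw [← hsum, Finset.mul_sum]
    by_cases hn : n ≤ V.dim
    · rw [Finset.sum_eq_single n]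
      · intro m _ hm
        exact hne n m hm.symm
      · intro hn'
        rw [Finset.mem_range] at hn'
        omega
    · rw [hin n (by omega), zero_mul]
      exact Finset.sum_eq_zero fun m _ => zero_mul _
  have het : ∀ n, e * t n = t n * t n := by
    intro n
    rw [← hsum, Finset.sum_mul]
    by_cases hn : n ≤ V.dim
    · rw [Finset.sum_eq_single n]
      · intro m _ hm
        exact hne m n hm
      · intro hn'
        rw [Finset.mem_range] at hn'
        omega
    · rw [hin n (by omega), mul_zero]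
      exact Finset.sum_eq_zero fun m _ => mul_zero _
  have hcube : ∀ n, t n * t n * t n = t n * t n := by
    intro n
    calc t n * t n * t n = e * t n * t n := by rw [het]
      _ = e * (t n * t n) := mul_assoc _ _ _
      _ = e * (e * t n) := by rw [het]
      _ = e * e * t n := (mul_assoc _ _ _).symm
      _ = t n * t n := by rw [hee, het]
  let ε : ℕ → Cor C V := fun n => t n * t n
  have hεε : ∀ n, ε n * ε n = ε n := by
    intro n
    simp only [ε]
    rw [← mul_assoc, hcube, hcube]
  have hεne : ∀ n m, n ≠ m → ε n * ε m = 0 := by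
    intro n m hnm
    simp only [ε]
    rw [mul_assoc, ← mul_assoc (t n) (t m), hne n m hnm, zero_mul, mul_zero]
  have hεsum : ∑ n ∈ Finset.range (V.dim + 1), ε n = e := by
    have h4 : ∀ n ∈ Finset.range (V.dim + 1), ε n = t n * e := fun n _ => (hte n).symm
    rw [Finset.sum_congr rfl h4, ← Finset.sum_mul, hsum, hee]
  have hqε : ∀ n, q * ε n = 0 := by
    intro n
    simp only [ε]
    rw [← het, ← mul_assoc, hqe, zero_mul]
  have hεq : ∀ n, ε n * q = 0 := by
    intro n
    simp only [ε]
    rw [← hte, mul_assoc, heq, mul_zero]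
  have hεS : ∀ n, (ε n : C.A (V.prod V)) ∈ SS C V n := fun n => ss_comp_left (h1 n) (ss_mem (h1 n))
  have hε0 : ∀ n, V.dim < n → ε n = 0 := by
    intro n hn
    simp only [ε]
    rw [hin n hn, zero_mul]
  let A : ℕ → Cor C V := fun i => if i = V.dim then q else 0
  let B : ℕ → Cor C V := fun i => if Even i then ε (i / 2) else 0
  let P : ℕ → Cor C V := fun i => A i + B i
  have hAA : ∀ i j, A i * A j = if i = j then A i else 0 := by
    intro i j
    simp only [A]
    by_cases hi : i = V.dim <;> by_cases hj : j = V.dim <;> by_cases hij : i = j <;>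
      simp_all
  have hAB : ∀ i j, A i * B j = 0 := by
    intro i j
    simp only [A, B]
    split_ifs
    · exact hqε _
    · exact mul_zero _
    · exact zero_mul _
    · exact mul_zero _
  have hBA : ∀ i j, B i * A j = 0 := by
    intro i j
    simp only [A, B]
    split_ifs
    · exact hεq _
    · exact mul_zero _
    · exact zero_mul _
    · exact mul_zero _
  have hBB : ∀ i j, B i * B j = if i = j then B i else 0 := by
    intro i j
    simp only [B]
    by_cases hi : Even i
    · by_cases hj : Even j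
      · rw [if_pos hi, if_pos hj]
        by_cases hij : i = j
        · subst hij
          rw [if_pos rfl, hεε]
        · rw [if_neg hij, hεne]
          obtain ⟨a, ha⟩ := hi
          obtain ⟨b, hb⟩ := hj
          omega
      · rw [if_pos hi, if_neg hj, mul_zero, if_neg]
        rintro rfl
        exact hj hi
    · rw [if_neg hi, zero_mul, ite_self]
  have hPP : ∀ i j, P i * P j = if i = j then P i else 0 := by
    intro i j
    simp only [P]
    rw [add_mul, mul_add, mul_add, hAA, hAB, hBA, hBB, add_zero, zero_add]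
    split_ifs
    · rfl
    · exact add_zero _
  have hAs : ∑ i ∈ Finset.range (2 * V.dim + 1), A i = q := by
    simp only [A]
    rw [Finset.sum_ite_eq' (Finset.range (2 * V.dim + 1)) V.dim, if_pos (by
      rw [Finset.mem_range]; omega)]
  have hPs : ∑ i ∈ Finset.range (2 * V.dim + 1), P i = 1 := by
    simp only [P]
    rw [Finset.sum_add_distrib, hAs]
    have h4 := sum_even ε V.dim
    have h5 : ∑ i ∈ Finset.range (2 * V.dim + 1), B i = e := h4.trans hεsum
    rw [h5]
    simp only [e]
    abel
  have hkill : ∀ (i : ℕ) (m : ℤ) (a : H.A V), m ≠ i → a ∈ H.gr V m →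
      actH C V H (P i) a = 0 := by
    intro i m a hm ha
    have h5 : actH C V H (A i) a = 0 := by
      simp only [A]
      split_ifs with hi
      · subst hi
        exact h.kills m hm a ha
      · rw [map_zero, LinearMap.zero_apply]
    have h6 : actH C V H (B i) a = 0 := by
      simp only [B]
      split_ifs with hi
      · refine ss_kills (hεS (i / 2)) ?_ ha
        obtain ⟨b, hb⟩ := hi
        omega
      · rw [map_zero, LinearMap.zero_apply]
    simp only [P]
    rw [map_add, LinearMap.add_apply, h5, h6, add_zero]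
  have hout : ∀ i, 2 * V.dim < i → P i = 0 := by
    intro i hi
    simp only [P, A, B]
    have h7 : 1 ≤ V.dim ∨ V.dim = 0 := by omega
    rw [if_neg (by omega), zero_add]
    split_ifs with he
    · exact hε0 _ (by obtain ⟨b, hb⟩ := he; omega)
    · rfl
  refine ⟨P, isCK_of ?_ hout hPP hPs ?_, ?_⟩
  · intro i
    simp only [P, A, B]
    refine (cor0 C V).add_mem ?_ ?_
    · split_ifs
      · exact h.deg
      · exact (cor0 C V).zero_mem
    · split_ifs
      · exact ss_mem (hεS _)
      · exact (cor0 C V).zero_mem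
  · intro i m a ha
    split_ifs with hm
    · subst hm
      by_cases hi : i < 2 * V.dim + 1
      · have h8 : actH C V H (∑ j ∈ Finset.range (2 * V.dim + 1), P j) a = a := by
          rw [hPs, map_one]
          rfl
        rw [map_sum, LinearMap.sum_apply, Finset.sum_eq_single i] at h8
        · exact h8
        · intro j _ hj
          exact hkill j _ a (by exact_mod_cast hj.symm) ha
        · intro hi'
          rw [Finset.mem_range] at hi'
          omega
      · rw [hout i (by omega), map_zero, LinearMap.zero_apply]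
        rw [gr_top H (by push_cast; omega)] at ha
        exact ((Submodule.mem_bot _).1 ha).symm
    · exact hkill i m a hm ha
  · change P V.dim * q = q
    simp only [P, A, B]
    rw [if_pos trivial, add_mul, hqq]
    split_ifs
    · rw [hεq, add_zero]
    · rw [zero_mul, add_zero]

end Pool.Agent.Hx18.MD
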