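import Pool.Agent.Hx18.MD.Van

/-!
# The filtration and the Chow-Kunneth decompositions
-/

set_option autoImplicit false

open CategoryTheory AlgebraicGeometry

universe u v w

namespace Pool.Agent.Hx18.MD

open Pool.Agent.H914 Pool.Agent.H914.VarClass Pool.Agent.H914.VarClass.Obj Pool.Agent.W492.BB
  Pool.Agent.W550.Corr Pool.Agent.TH133 Pool.Agent.Y148.BB Pool.Agent.Hx18.BB Pool.Agent.Hx18.CI

set_option linter.unusedSectionVars false
set_option linter.unusedVariables false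

variable {k : Type u} [Field k] {𝒱 : VarClass k}

variable {C : TheoryData.{u, v, 0} 𝒱 ℚ} [hC : IsChowProj C] {K : Type w} [Field K]
  {H : WeilTheoryData.{u, v, w} C K} [hH : IsWeilProj H] {X Y Z W T P R V S : 𝒱.Obj}
  {𝒬 : ℕ → ∀ P : 𝒱.Obj, C.A (P.prod P) → Prop} {D E : ℕ∞}

/-- The hypotheses. -/
structure Hyp (H : WeilTheoryData.{u, v, w} C K) (𝒬 : ℕ → ∀ P : 𝒱.Obj, C.A (P.prod P) → Prop)
    (D E : ℕ∞) : Prop where
  sys : Sys H 𝒬
  van : ∀ (n : ℕ) (P : 𝒱.Obj) (p : C.A (P.prod P)), 𝒬 n P p → MD.Van H E n P p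
  bound : ∀ n i : ℕ, (n : ℕ∞) ≤ D → 2 * i ≤ n → (i : ℕ∞) ≤ E
  bound' : ∀ m n i : ℕ, (m : ℕ∞) ≤ D → (n : ℕ∞) ≤ D → 2 * i ≤ m + n → (i : ℕ∞) ≤ E

include hC hH

lemma Hyp.zero (h : Hyp H 𝒬 D E) {j : ℕ} {z : C.A X} (hz : z ∈ C.gr X j) :
    z ∈ CI.fil H 𝒬 D ⊤ X j 0 := by
  refine ⟨hz, fun h => absurd h (by norm_num), ?_⟩
  intro n P p hp hn i hiJ Γ hΓ hi
  have hP := h.sys.pure hp
  have h1 : C.act Γ z ∈ C.gr P i := act_memZ hΓ hz (by ring)
  refine (h.van n P p hp).low i (h.bound n i hn (by omega)) (by omega) _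
    (act_mem00 (H := H) hP.deg h1) ?_
  rw [← C.act_comp, hP.idem]

lemma Hyp.one (h : Hyp H 𝒬 D E) {j : ℕ} {z : C.A X} (hz : z ∈ C.gr X j) (hcl : H.cl z = 0) :
    z ∈ CI.fil H 𝒬 D ⊤ X j 1 := by
  refine ⟨hz, fun _ => hcl, ?_⟩
  intro n P p hp hn i hiJ Γ hΓ hi
  have hP := h.sys.pure hp
  have h1 : C.act Γ z ∈ C.gr P i := act_memZ hΓ hz (by ring)
  have h2 : C.act p (C.act Γ z) ∈ C.gr P i := act_mem00 (H := H) hP.deg h1
  have h3 : C.act p (C.act p (C.act Γ z)) = C.act p (C.act Γ z) := by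
    rw [← C.act_comp, hP.idem]
  have hE := h.bound n i hn (by omega)
  rcases lt_or_eq_of_le (by omega : 2 * i ≤ n) with h4 | h4
  · exact (h.van n P p hp).low i hE h4 _ h2 h3
  · exact (h.van n P p hp).mid i hE h4 _ h2 h3 (CI.act_hom (CI.act_hom hcl))

lemma top_eq (hs : Sys H 𝒬) (hX : dg C X ∈ CI.thr C 𝒬 D X) (j : ℕ) :
    CI.fil H 𝒬 D ⊤ X j (j + 1) = ⊥ := by
  rw [eq_bot_iff]
  rintro z ⟨hz, hcl, ht⟩
  have hcl := hcl (by omega)
  refine CI.dec_principle hX hz _ ?_ ?_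
  · intro n P p i a b hp hn hij hid ha hb
    rw [Submodule.mem_bot]
    have hP := hs.pure hp
    have hd := hP.dim_eq
    rw [ht n P p hp hn i le_top a ha (by omega), C.act_map_zero]
  · intro i a b ha hb
    rw [Submodule.mem_bot]
    exact CI.act_dec hz hcl i a b ha

/-- The vanishing of correspondences between parts. -/
lemma Hyp.corr_zero (h : Hyp H 𝒬 D E) {n m : ℕ} {p : C.A (P.prod P)} {r : C.A (R.prod R)}
    (hp : 𝒬 n P p) (hr : 𝒬 m R r) {e : ℕ} (hE : (e : ℕ∞) ≤ E)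
    {Ξ : C.A (P.prod R)} (hΞ : Ξ ∈ C.gr (P.prod R) e) (h1 : C.comp p Ξ = Ξ)
    (h2 : C.comp Ξ r = Ξ) (he : 2 * e < n + m ∨ (2 * e = n + m ∧ H.cl Ξ = 0)) : Ξ = 0 := by
  obtain ⟨R', r', hR', hs⟩ := h.sys.prod hp hr
  have hV := Van.of_summand hs (h.van _ _ _ hR')
  have hP := h.sys.pure hp
  have h3 := hP.fix_of h1 h2
  rcases he with he | ⟨he, hcl⟩
  · exact hV.low e hE he Ξ hΞ h3
  · exact hV.mid e hE he Ξ hΞ h3 hcl

lemma Hyp.shift (h : Hyp H 𝒬 D E) (hX : dg C X ∈ CI.thr C 𝒬 D X) {j i ν : ℕ}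
    {Γ : C.A (X.prod Y)}
    (hΓ : Γ ∈ C.gr (X.prod Y) (X.dim + i - j)) (hk : Kills H Γ (2 * j - ν)) {z : C.A X}
    (hz : z ∈ CI.fil H 𝒬 D ⊤ X j ν) : C.act Γ z ∈ CI.fil H 𝒬 D ⊤ Y i (ν + 1) := by
  obtain ⟨h1, h2, h3⟩ := hz
  have hcl : H.cl (C.act Γ z) = 0 := by
    rcases Nat.eq_zero_or_pos ν with hν | hν
    · subst hν
      rw [cl_act]
      exact hk _ (by simpa using H.cl_mem h1)
    · exact CI.act_hom (h2 hν)
  have hd : C.act Γ z ∈ C.gr Y i := act_memZ hΓ h1 (by ring)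
  rcases Nat.eq_zero_or_pos ν with hν | hν
  · subst hν
    exact h.one hd hcl
  have hzcl := h2 hν
  refine ⟨hd, fun _ => hcl, ?_⟩
  intro n P p hp hn l hlJ Θ hΘ hl
  rcases lt_or_eq_of_le (by omega : 2 * l ≤ n + ν) with hl | hl
  · exact CI.tests_act hΓ h3 n P p hp hn l hlJ Θ hΘ hl
  have hP := h.sys.pure hp
  rw [← C.act_comp, ← C.act_comp]
  set Ψ := C.comp Γ (C.comp Θ p) with hΨ
  have hΨd : Ψ ∈ C.gr (X.prod P) (X.dim + l - j) :=
    comp_memZ hΓ (comp_memZ hΘ hP.deg rfl) (by ring)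
  have hΨp : C.comp Ψ p = Ψ := by rw [hΨ, comp_assoc, comp_assoc, hP.idem]
  have key : z ∈ LinearMap.ker (C.actL Ψ) := by
    refine CI.dec_principle hX h1 _ ?_ ?_
    · intro m R r t a b hr hm htj htd ha hb
      rw [LinearMap.mem_ker, TheoryData.actL_apply]
      have hR := h.sys.pure hr
      have hdim := hR.dim_eq
      rcases lt_or_ge (2 * t) (m + ν) with h4 | h4
      · rw [h3 m R r hr hm t le_top a ha h4, C.act_map_zero, C.act_map_zero]
      · rw [← C.act_comp, ← C.act_comp]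
        have h5 : C.comp r (C.comp b Ψ) = 0 := by
          have h6 : C.comp r (C.comp b Ψ) ∈ C.gr (R.prod P) ((m + l - t : ℕ) : ℤ) := by
            refine comp_memZ hR.deg (comp_memZ hb hΨd rfl) ?_
            rw [hdim]
            push_cast [Nat.cast_sub (show t ≤ m + l by omega)]
            ring
          refine h.corr_zero hr hp (h.bound' m n _ hm hn (by omega)) h6 ?_ ?_ ?_
          · rw [← comp_assoc, hR.idem]
          · rw [comp_assoc, comp_assoc, hΨp]
          · rcases lt_or_eq_of_le h4 with h7 | h7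
            · left; omega
            · right
              refine ⟨by omega, hom_zero_of_act H fun x => ?_⟩
              refine act_eq_zero_of_kills H _ (fun q x hx => ?_) x
              rw [actH_comp]
              by_cases hq : q = m
              · subst hq
                rw [actH_comp, hΨ, actH_comp]
                have h8 : H.act (H.cl b) (H.act (H.cl r) x) ∈ H.gr X (2 * j - ν) := by
                  have h9 : H.act (H.cl r) x ∈ H.gr R m := by
                    have := actH_mem H (e := 0) (Γ := r) (mem_of_eq hR.deg (by ring)) hx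
                    simpa using this
                  have h10 := actH_mem H (e := (j : ℤ) - t) (Γ := b)
                    (mem_of_eq hb (by ring)) h9
                  rwa [show (m : ℤ) + 2 * ((j : ℤ) - t) = 2 * j - ν by omega] at h10
                rw [hk _ h8]
                exact map_zero (H.actL (H.cl (C.comp Θ p)))
              · rw [hR.kills q hq x hx]
                exact map_zero (H.actL (H.cl (C.comp b Ψ)))
        rw [h5, C.act_zero]
    · intro t a b ha hb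
      rw [CI.act_dec h1 hzcl t a b ha]
      exact Submodule.zero_mem _
  exact LinearMap.mem_ker.1 key

lemma fil_mono {j m n : ℕ} (h : m ≤ n) : CI.fil H 𝒬 D ⊤ X j n ≤ CI.fil H 𝒬 D ⊤ X j m := by
  induction n, h using Nat.le_induction with
  | base => exact le_refl _
  | succ n _ ih => exact (CI.fil_anti j n).trans ih

/-- The action of the components of a Chow-Kunneth decomposition on the filtration. -/
lemma Hyp.ck_climb (h : Hyp H 𝒬 D E) (hX : dg C X ∈ CI.thr C 𝒬 D X)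
    {π : ℕ → C.A (X.prod X)} (hπ : IsCK H X π) {i j : ℕ} {z : C.A X} {ν : ℕ}
    (hz : z ∈ CI.fil H 𝒬 D ⊤ X i ν) (s : ℕ)
    (hs : ∀ t : ℕ, t < s → (2 * (i : ℤ) - ((ν + t : ℕ) : ℤ)) ≠ j) :
    C.act (π j) z ∈ CI.fil H 𝒬 D ⊤ X i (ν + s) := by
  induction s with
  | zero =>
    exact CI.fil_stable (mem_of_eq (hπ.deg j) (by ring)) hz
  | succ s ih =>
    have h1 := ih fun t ht => hs t (by omega)
    have h2 := h.shift hX (mem_of_eq (hπ.deg j) (by ring) : π j ∈ C.gr (X.prod X)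
      (X.dim + i - i)) (fun a ha => hπ.act_ne j _ a (hs s (by omega)) ha) h1
    rwa [← C.act_comp, hπ.idem] at h2

lemma Hyp.ck_zero (h : Hyp H 𝒬 D E) (hX : dg C X ∈ CI.thr C 𝒬 D X)
    {π : ℕ → C.A (X.prod X)} (hπ : IsCK H X π) {i j : ℕ} {z : C.A X} {ν : ℕ}
    (hz : z ∈ CI.fil H 𝒬 D ⊤ X i ν) (hj : 2 * i < ν + j ∨ j < i) :
    C.act (π j) z = 0 := by
  rcases hj with hj | hj
  · have h1 := h.ck_climb hX hπ (j := j) hz (i + 1) (fun t _ => by push_cast; omega)
    have h2 := fil_mono (show i + 1 ≤ ν + (i + 1) by omega) h1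
    rw [top_eq h.sys hX] at h2
    exact (Submodule.mem_bot ℚ).1 h2
  · have h0 := fil_mono (Nat.zero_le ν) hz
    have h1 := h.ck_climb hX hπ (j := j) h0 (2 * i - j) (fun t ht => by push_cast; omega)
    have h2 := fil_mono (show i + 1 ≤ 0 + (2 * i - j) by omega) h1
    rw [top_eq h.sys hX] at h2
    exact (Submodule.mem_bot ℚ).1 h2

/-- The filtration attached to any Chow-Kunneth decomposition is `fil`. -/
theorem Hyp.ckFil_eq (h : Hyp H 𝒬 D E) (hX : dg C X ∈ CI.thr C 𝒬 D X)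
    {π : ℕ → C.A (X.prod X)} (hπ : IsCK H X π) (i n : ℕ) :
    ckFil C π i n = CI.fil H 𝒬 D ⊤ X i n := by
  ext x
  rw [hπ.mem_ckFil]
  constructor
  · rintro ⟨hx, hx'⟩
    have h1 : C.act (∑ j ∈ Finset.range (2 * X.dim + 1), π j) x = x := by
      rw [hπ.sum, act_dg]
    rw [← h1, act_sum]
    refine Submodule.sum_mem _ fun j _ => ?_
    rcases lt_or_ge j (2 * i + 1 - n) with hj | hj
    · have h2 := h.ck_climb hX hπ (j := j) (h.zero hx) (2 * i - j)
        (fun t ht => by push_cast; omega)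
      exact fil_mono (by omega) h2
    · rw [hx' j hj]
      exact Submodule.zero_mem _
  · intro hx
    exact ⟨hx.1, fun j hj => h.ck_zero hX hπ hx (Or.inl (by omega))⟩

/-- **Murre's conjectures.** -/
theorem Hyp.murre (h : Hyp H 𝒬 D E) (hX : dg C X ∈ CI.thr C 𝒬 D X) :
    MurreB0 H X ∧ MurreB1 H X ∧ MurreC H X ∧ MurreD H X := by
  refine ⟨?_, ?_, ?_, ?_⟩
  · intro π hπ i
    rw [h.ckFil_eq hX hπ]
    exact le_antisymm (fun z hz => hz.1) (fun z hz => h.zero hz)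
  · intro π hπ i
    rw [h.ckFil_eq hX hπ, top_eq h.sys hX]
  · intro π π' hπ hπ' i n
    rw [h.ckFil_eq hX hπ, h.ckFil_eq hX hπ']
  · intro π hπ i x
    rw [h.ckFil_eq hX hπ]
    exact ⟨fun hx => ⟨hx.1, hx.2.1 le_rfl⟩, fun hx => h.one hx.1 hx.2⟩

end Pool.Agent.Hx18.MD
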