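import Pool.Agent.Hx18.MD.CK
import Pool.Agent.Hx18.CI.Main

/-!
# Main theorem on Murre's conjectures
-/

set_option autoImplicit false

open CategoryTheory AlgebraicGeometry

universe u v w

namespace Pool.Agent.Hx18.MD

open Pool.Agent.H914 Pool.Agent.H914.VarClass Pool.Agent.H914.VarClass.Obj Pool.Agent.W492.BB
  Pool.Agent.W550.Corr Pool.Agent.TH133 Pool.Agent.Y148.BB Pool.Agent.Hx18.BB Pool.Agent.Hx18.CI

set_option linter.unusedSectionVars false
set_option linter.unusedVariables false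

variable {k : Type u} [Field k] {𝒱 : VarClass k}

variable {C : TheoryData.{u, v, 0} 𝒱 ℚ} [hC : IsChowProj C] {K : Type w} [Field K]
  {H : WeilTheoryData.{u, v, w} C K} [hH : IsWeilProj H] {X Y Z W T P R V S : 𝒱.Obj}
  {Q : ∀ V : 𝒱.Obj, C.A (V.prod V) → Prop} {D E : ℕ∞}

include hC hH

/-- The primitive motives are cut out by a Chow-Kunneth decomposition. -/
theorem exists_ck_primitive (hQ : ∀ V q, Q V q → IsBlock H Q V q) {p : C.A (P.prod P)}
    (h : IsPrimitive Q P p) :
    ∃ π : ℕ → C.A (P.prod P), IsCK H P π ∧ C.comp p (π P.dim) = p := by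
  induction h with
  | piece T r hr =>
    rcases hr with hr | ⟨o, hT, ho, hd, rfl⟩
    · have hb := hQ T r hr
      exact exists_ck_block (isPure_block hb) hb.diagonal
    · have hd' := degreeOne_iff.1 hd
      refine ⟨curveCK C o, curveCK_isCK H hT ho hd', ?_⟩
      rw [hT]
      exact odd_odd hT ho hd'
  | prod P R p r hp hr ih ih' =>
    obtain ⟨π, h1, h2⟩ := ih
    obtain ⟨ρ, h3, h4⟩ := ih'
    refine ⟨prodCK C π ρ, h1.prod h3, ?_⟩
    rw [dim_prod]
    change C.comp (TH133.tens C p r) (∑ i ∈ Finset.range (P.dim + R.dim + 1),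
      TH133.tens C (π i) (ρ (P.dim + R.dim - i))) = TH133.tens C p r
    rw [comp_sum, Finset.sum_eq_single P.dim]
    · rw [tens_comp', Nat.add_sub_cancel_left, h2, h4]
    · intro i _ hi
      rw [tens_comp']
      have h5 : C.comp p (π i) = 0 := by
        rw [← h2, comp_assoc, h1.orth _ _ hi.symm, comp_zero]
      rw [h5, tens_zero_left]
    · intro h
      exact absurd (Finset.mem_range.2 (by omega)) h

/-- The two forms of the definition of Chow-Kunneth decompositions. -/
lemma isDecomposition_iff {π : ℕ → C.A (X.prod X)} : IsDecomposition H X π ↔ IsCK H X π := by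
  constructor
  · intro h
    refine ⟨h.deg, h.out, h.idem, h.orth, h.sum, ?_, fun i m a hm ha => h.ne i m hm a ha⟩
    intro i a ha
    have h1 := h.self i a ha
    have h2 : H.cl (diag C X - π i) = H.cl (dg C X) - H.cl (π i) := map_sub _ _ _
    rw [h2, H.act_sub, actH_dg, sub_eq_zero] at h1
    exact h1.symm
  · intro h
    refine ⟨h.deg, h.out, h.idem, h.orth, h.sum, ?_, fun i m hm a ha => h.act_ne i m a hm ha⟩
    intro i a ha
    have h2 : H.cl (diag C X - π i) = H.cl (dg C X) - H.cl (π i) := map_sub _ _ _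
    rw [h2, H.act_sub, actH_dg, h.act_self i a ha, sub_self]

omit hC hH in
lemma inStep_iff {π : ℕ → C.A (X.prod X)} {i n : ℕ} {z : C.A X} :
    InStep π i n z ↔ z ∈ ckFil C π i n := Iff.rfl

lemma conjectureD_iff : ConjectureD H X ↔ MurreD H X :=
  ⟨fun h π hπ => h π (isDecomposition_iff.2 hπ), fun h π hπ => h π (isDecomposition_iff.1 hπ)⟩

lemma conjectureB_of (h : MurreB0 H X) (h' : MurreB1 H X) : ConjectureB H X := by
  intro π hπ i z
  have hπ' := isDecomposition_iff.1 hπ
  refine ⟨fun hz => ?_, fun hz => ?_⟩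
  · rw [inStep_iff, h π hπ' i]
    exact hz
  · rw [inStep_iff, h' π hπ' i] at hz
    exact (Submodule.mem_bot ℚ).1 hz

lemma conjectureC_of (h : MurreC H X) : ConjectureC H X := by
  intro π π' hπ hπ' i n z
  rw [inStep_iff, inStep_iff, h π π' (isDecomposition_iff.1 hπ) (isDecomposition_iff.1 hπ') i n]

/-- **Necessity.** -/
theorem homInjective_of (hQ : ∀ V q, Q V q → IsBlock H Q V q) {j : ℕ}
    (h : ∀ (P : 𝒱.Obj), IsProduct Q P → P.dim = 2 * j → MurreD H P) : HomInjectiveOn H Q j := by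
  intro P p hp hdim z hz hcl hpz
  obtain ⟨π, hπ, hpπ⟩ := exists_ck_primitive hQ hp
  have h1 := ((h P (product_of_primitive hp) hdim) π hπ j z).2 ⟨hz, hcl⟩
  rw [hπ.mem_ckFil] at h1
  have h2 := h1.2 P.dim (by omega)
  rw [← hpz, ← hpπ, C.act_comp, hpz, h2]

/-- **Sufficiency.** -/
theorem murre_of (hQ : ∀ V q, Q V q → IsBlock H Q V q) (hfib : FibreTheorem C)
    (habel : AbelTheorem H) (h : ∀ j : ℕ, 2 ≤ j → (j : ℕ∞) ≤ D → HomInjectiveOn H Q j)
    (hX : Generated C Q D X) : MurreB0 H X ∧ MurreB1 H X ∧ MurreC H X ∧ MurreD H X := by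
  have hhom : PartHom H Q D := by
    intro j hj n P p hp hn z hz hpz hcl
    obtain ⟨h1, h2⟩ := primitive_of_part hp
    have h3 := one_le_part hQ hp
    rcases lt_or_ge j 2 with h4 | h4
    · obtain rfl : j = 1 := by omega
      have hpure := isPure_part hQ hp
      rw [← hpz]
      exact habel P P p hpure.deg (hpure.kills 1 (by omega)) z (by exact_mod_cast hz) hcl
    · exact h j h4 hj P p h1 (by omega) z hz hcl hpz
  have hyp : Hyp H (Part Q) D D :=
    { sys := sys_part hQ
      van := fun _ _ _ hp => van_part hfib hQ hhom hp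
      bound := fun n i hn hi => le_trans (by exact_mod_cast (by omega : i ≤ n)) hn
      bound' := by
        intro m n i hm hn hi
        rcases le_total m n with h | h
        · exact le_trans (by exact_mod_cast (by omega : i ≤ n)) hn
        · exact le_trans (by exact_mod_cast (by omega : i ≤ m)) hm }
  exact hyp.murre (thr_generated hQ hX)

lemma exists_primitive (hX : IsProduct Q P) : ∃ p, IsPrimitive Q P p := by
  induction hX with
  | curve T hT =>
    obtain ⟨o, ho, hd⟩ := exists_point C T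
    exact ⟨oddPart o, IsPrimitive.piece T _ (Or.inr ⟨o, hT, by
      rw [hT] at ho
      exact_mod_cast ho, degreeOne_iff.2 hd, rfl⟩)⟩
  | block V q h => exact ⟨q, IsPrimitive.piece V q (Or.inl h)⟩
  | prod P R hP hR ih ih' =>
    obtain ⟨p, hp⟩ := ih
    obtain ⟨r, hr⟩ := ih'
    exact ⟨boxCorr p r, IsPrimitive.prod P R p r hp hr⟩

omit hC hH in
/-- **Main theorem.** -/
theorem main (C : TheoryData.{u, v, 0} 𝒱 ℚ) [IsChowProj C] {K : Type w} [Field K]
    (H : WeilTheoryData.{u, v, w} C K) [IsWeilProj H]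
    (Q : ∀ V : 𝒱.Obj, C.A (V.prod V) → Prop) (hQ : ∀ V q, Q V q → IsBlock H Q V q)
    (hfib : FibreTheorem C) (habel : AbelTheorem H) :
    (∀ P, IsProduct Q P → ∃ π, IsDecomposition H P π) ∧
    ((∀ X, Generated C Q ⊤ X → ConjectureD H X) ↔ ∀ j : ℕ, 2 ≤ j → HomInjectiveOn H Q j) ∧
    ((∀ X, Generated C Q ⊤ X → ConjectureD H X) → ∀ X, Generated C Q ⊤ X →
      ConjectureB H X ∧ ConjectureC H X) ∧
    (∀ d : ℕ, (∀ j : ℕ, 2 ≤ j → j ≤ d → HomInjectiveOn H Q j) → ∀ X, Generated C Q d X →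
      ConjectureB H X ∧ ConjectureC H X ∧ ConjectureD H X) ∧
    (∀ d : ℕ, (∀ X, Generated C Q d X → ConjectureD H X) → ∀ j : ℕ, 2 * j ≤ d →
      HomInjectiveOn H Q j) := by
  have key : (∀ X, Generated C Q ⊤ X → ConjectureD H X) → ∀ j : ℕ, 2 ≤ j → HomInjectiveOn H Q j :=
    fun h j hj => homInjective_of hQ fun P hP _ => conjectureD_iff.1 (h P (generated_self hP le_top))
  refine ⟨?_, ⟨key, ?_⟩, ?_, ?_, ?_⟩
  · intro P hP
    obtain ⟨p, hp⟩ := exists_primitive (H := H) hP
    obtain ⟨π, h1, -⟩ := exists_ck_primitive hQ hp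
    exact ⟨π, isDecomposition_iff.2 h1⟩
  · intro h X hX
    exact conjectureD_iff.2 (murre_of hQ hfib habel (fun j hj _ => h j hj) hX).2.2.2
  · intro h X hX
    obtain ⟨h1, h2, h3, -⟩ := murre_of hQ hfib habel (fun j hj _ => key h j hj) hX
    exact ⟨conjectureB_of h1 h2, conjectureC_of h3⟩
  · intro d h X hX
    obtain ⟨h1, h2, h3, h4⟩ :=
      murre_of hQ hfib habel (fun j hj hjd => h j hj (by exact_mod_cast hjd)) hX
    exact ⟨conjectureB_of h1 h2, conjectureC_of h3, conjectureD_iff.2 h4⟩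
  · intro d h j hjd
    refine homInjective_of hQ fun P hP hdim => conjectureD_iff.1 (h P (generated_self hP ?_))
    rw [hdim]
    exact_mod_cast hjd

end Pool.Agent.Hx18.MD
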