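import Pool.Agent.Hx18.CI.Stmt

/-!
# Murre's conjecture (D) on the motives generated by curves and complete intersections:
# definitions
-/

set_option autoImplicit false

open CategoryTheory AlgebraicGeometry

universe u v w

namespace Pool.Agent.Hx18.MD

open Pool.Agent.H914 Pool.Agent.H914.VarClass Pool.Agent.H914.VarClass.Obj Pool.Agent.W492.BB
  Pool.Agent.W550.Corr Pool.Agent.TH133 Pool.Agent.Hx18.BB Pool.Agent.Hx18.CI

noncomputable section

variable {k : Type u} [Field k] {𝒱 : VarClass k} {C : TheoryData.{u, v, 0} 𝒱 ℚ} {K : Type w}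
  [Field K]

/-- The class `z` is in the step `F^n CH^i(X) = (π_{2i-n} + ⋯ + π_0)_* CH^i(X)` of the filtration
attached to the Chow-Kunneth decomposition `π`. -/
def InStep {X : 𝒱.Obj} (π : ℕ → C.A (X.prod X)) (i n : ℕ) (z : C.A X) : Prop :=
  ∃ y, C.Deg i y ∧ C.act (∑ j ∈ Finset.range (2 * i + 1 - n), π j) y = z

variable (H : WeilTheoryData.{u, v, w} C K) (X : 𝒱.Obj)

/-- A Chow-Kunneth decomposition of `X`: self-correspondences `π 0, …, π (2 dim X)` of degree zero
(`π i = 0` for `i > 2 dim X`) which are mutually orthogonal idempotents with sum the diagonal, and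
such that `π i` acts as the identity on `H^i(X)` and as zero on `H^m(X)` for `m ≠ i`. -/
structure IsDecomposition (π : ℕ → C.A (X.prod X)) : Prop where
  deg : ∀ i, C.Deg X.dim (π i)
  out : ∀ i, 2 * X.dim < i → π i = 0
  idem : ∀ i, cmp (π i) (π i) = π i
  orth : ∀ i j, i ≠ j → cmp (π i) (π j) = 0
  sum : ∑ i ∈ Finset.range (2 * X.dim + 1), π i = diag C X
  self : ∀ i : ℕ, Kills H (diag C X - π i) i
  ne : ∀ (i : ℕ) (m : ℤ), m ≠ i → Kills H (π i) m

/-- Murre's conjecture (B) for `X` and all its Chow-Kunneth decompositions: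
`F^0 CH^i(X) = CH^i(X)` and `F^(i+1) CH^i(X) = 0`. -/
def ConjectureB : Prop :=
  ∀ π, IsDecomposition H X π → ∀ (i : ℕ) (z : C.A X),
    (C.Deg i z → InStep π i 0 z) ∧ (InStep π i (i + 1) z → z = 0)

/-- Murre's conjecture (C) for `X`: the filtration does not depend on the Chow-Kunneth
decomposition. -/
def ConjectureC : Prop :=
  ∀ π π', IsDecomposition H X π → IsDecomposition H X π' → ∀ (i n : ℕ) (z : C.A X),
    InStep π i n z ↔ InStep π' i n z

/-- Murre's conjecture (D) for `X` and all its Chow-Kunneth decompositions: `F^1 CH^i(X)` is the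
group of homologically trivial cycles. -/
def ConjectureD : Prop :=
  ∀ π, IsDecomposition H X π → ∀ (i : ℕ) (z : C.A X),
    InStep π i 1 z ↔ C.Deg i z ∧ HomTrivial H z

/-- The theorem of Abel: a correspondence from `X` to `Y` which acts as zero on `H^1(X)` acts as
zero on the homologically trivial divisor classes of `X`. -/
def AbelTheorem : Prop :=
  ∀ (X Y : 𝒱.Obj) (Γ : C.A (X.prod Y)), C.Deg X.dim Γ → Kills H Γ 1 →
    ∀ z : C.A X, C.Deg 1 z → HomTrivial H z → C.act Γ z = 0

/-- The homologically trivial classes of codimension `j` of the primitive motives of dimension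
`2 j` vanish. -/
def HomInjectiveOn (Q : ∀ V : 𝒱.Obj, C.A (V.prod V) → Prop) (j : ℕ) : Prop :=
  ∀ (P : 𝒱.Obj) (p : C.A (P.prod P)), IsPrimitive Q P p → P.dim = 2 * j →
    ∀ z : C.A P, C.Deg j z → HomTrivial H z → C.act p z = z → z = 0

end

end Pool.Agent.Hx18.MD
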